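import Pool.Agent.Helper74.BS.St

set_option autoImplicit false

namespace Pool.Agent.Helper53.BS

open Pool.Agent.Helper73.DC Pool.Agent.Helper74.BS
open Pool.Agent.Helper83.PT (mpd Cor)
open scoped Classical

private theorem symAt_cases {α : Type} (w : List α) (i : ℕ) :
    (symAt w i = Sym.lm ∧ i = 0) ∨ (symAt w i = Sym.rm ∧ w.length + 1 ≤ i) ∨
      (∃ a, symAt w i = Sym.ch a ∧ 1 ≤ i ∧ i ≤ w.length ∧ w[i - 1]? = some a) := by
  unfold symAt
  by_cases h : i = 0
  · left; simp [h]
  · rw [if_neg h]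
    right
    cases h3 : w[i - 1]? with
    | none =>
      left
      rw [List.getElem?_eq_none_iff] at h3
      exact ⟨rfl, by omega⟩
    | some a =>
      right
      have h4 := (List.getElem?_eq_some_iff.1 h3).1
      exact ⟨a, rfl, by omega, by omega, rfl⟩

private theorem drop_cons {α : Type} (w : List α) (i : ℕ) (a : α) (h1 : 1 ≤ i)
    (h : w[i - 1]? = some a) : w.drop (i - 1) = a :: w.drop i := by
  obtain ⟨h2, h3⟩ := List.getElem?_eq_some_iff.1 h
  rw [List.drop_eq_getElem_cons h2, h3]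
  have : i - 1 + 1 = i := by omega
  rw [this]

/-- One move. -/
private theorem mpd_step {α : Type} [Fintype α] (M : DPDA α) (w : List α) (q : M.Q) (o : Option α)
    (e : Bool) (p : Fin 1 → ℕ) (v : List α)
    (Z : M.Γ) (Q2 : (M.Q × Option α) × Bool) (d : Fin 1 → Mv) (γ : List M.Γ)
    (hc : Cor w o e (p 0) v)
    (h : (mpd M).tr ((q, o), e) Z (fun i => symAt w (p i)) = some (Q2, d, γ)) :
    ∃ v', Cor w Q2.1.2 Q2.2 (nps w d p 0) v' ∧
      (dmv M (q, v) Z (Q2.1.1, v') γ ∨ (γ = [Z] ∧ Q2.1.1 = q ∧ v' = v)) := by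
  cases o with
  | some a =>
    obtain ⟨h1, h2, h3, h4⟩ := hc
    simp only [mpd] at h
    cases h5 : M.tr q Z a with
    | none => rw [h5] at h; simp at h
    | some x =>
      obtain ⟨q', γ'⟩ := x
      rw [h5] at h
      simp only at h
      rcases symAt_cases w (p 0) with ⟨h6, h7⟩ | ⟨h6, h7⟩ | ⟨b, h6, h7, h8, h9⟩
      · omega
      · rw [h6] at h
        simp only [Option.some.injEq, Prod.mk.injEq] at h
        obtain ⟨rfl, rfl, rfl⟩ := h
        refine ⟨w.drop (p 0 - 1), ?_, ?_⟩
        · have hn : nps w (fun _ => Mv.S) p 0 = p 0 := by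
            unfold nps; change min (p 0) _ = _; omega
          simp only [Cor]
          rw [hn]
          exact ⟨rfl, h3, fun _ => by omega⟩
        · left
          left
          exact ⟨a, h1, h5⟩
      · rw [h6] at h
        simp only [Option.some.injEq, Prod.mk.injEq] at h
        obtain ⟨rfl, rfl, rfl⟩ := h
        refine ⟨w.drop (p 0 - 1), ?_, ?_⟩
        · have hn : nps w (fun _ => Mv.S) p 0 = p 0 := by
            unfold nps; change min (p 0) _ = _; omega
          simp only [Cor]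
          rw [hn]
          exact ⟨rfl, h3, fun h => by simp at h⟩
        · left
          left
          exact ⟨a, h1, h5⟩
  | none =>
    obtain ⟨h1, h2, h3⟩ := hc
    simp only [mpd] at h
    rcases symAt_cases w (p 0) with ⟨h6, h7⟩ | ⟨h6, h7⟩ | ⟨b, h6, h7, h8, h9⟩
    · rw [h6] at h
      simp only [Option.some.injEq, Prod.mk.injEq] at h
      obtain ⟨rfl, rfl, rfl⟩ := h
      refine ⟨v, ?_, ?_⟩
      · have hn : nps w (fun _ => Mv.R) p 0 = 1 := by
          unfold nps; change min (p 0 + 1) _ = _; omega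
        simp only [Cor]
        rw [hn]
        refine ⟨by rw [h1, h7], by omega, fun he => ?_⟩
        have := h3 he
        omega
      · exact Or.inr ⟨rfl, rfl, rfl⟩
    · rw [h6] at h
      by_cases he : e = false
      · simp only at h
        rw [if_pos he] at h
        simp only [Option.some.injEq, Prod.mk.injEq] at h
        obtain ⟨rfl, rfl, rfl⟩ := h
        refine ⟨v, ?_, ?_⟩
        · have hn : nps w (fun _ => Mv.S) p 0 = p 0 := by
            unfold nps; change min (p 0) _ = _; omega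
          simp only [Cor]
          rw [hn]
          exact ⟨h1, h2, fun _ => by omega⟩
        · exact Or.inr ⟨rfl, rfl, rfl⟩
      · simp only at h
        rw [if_neg he] at h
        cases h5 : M.ep q Z with
        | none => rw [h5] at h; simp at h
        | some x =>
          obtain ⟨q', γ'⟩ := x
          rw [h5] at h
          simp only [Option.some.injEq, Prod.mk.injEq] at h
          obtain ⟨rfl, rfl, rfl⟩ := h
          refine ⟨v, ?_, ?_⟩
          · have hn : nps w (fun _ => Mv.S) p 0 = p 0 := by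
              unfold nps; change min (p 0) _ = _; omega
            simp only [Cor]
            rw [hn]
            exact ⟨h1, h2, fun _ => by omega⟩
          · left
            right
            exact ⟨rfl, h5⟩
    · rw [h6] at h
      simp only at h
      cases h5 : M.ep q Z with
      | some x =>
        obtain ⟨q', γ'⟩ := x
        rw [h5] at h
        simp only [Option.some.injEq, Prod.mk.injEq] at h
        obtain ⟨rfl, rfl, rfl⟩ := h
        refine ⟨v, ?_, ?_⟩
        · have hn : nps w (fun _ => Mv.S) p 0 = p 0 := by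
            unfold nps; change min (p 0) _ = _; omega
          simp only [Cor]
          rw [hn]
          exact ⟨h1, h2, h3⟩
        · left
          right
          exact ⟨rfl, h5⟩
      | none =>
        rw [h5] at h
        simp only at h
        cases h10 : M.tr q Z b with
        | none => rw [h10] at h; simp at h
        | some x =>
          rw [h10] at h
          simp only [Option.some.injEq, Prod.mk.injEq] at h
          obtain ⟨rfl, rfl, rfl⟩ := h
          refine ⟨v, ?_, ?_⟩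
          · have hn : nps w (fun _ => Mv.R) p 0 = p 0 + 1 := by
              unfold nps; change min (p 0 + 1) _ = _; omega
            simp only [Cor]
            rw [hn]
            refine ⟨?_, by omega, by omega, ?_⟩
            · rw [h1, drop_cons w (p 0) b h7 h9]
              simp
            · have : p 0 + 1 - 2 = p 0 - 1 := by omega
              rw [this]; exact h9
          · exact Or.inr ⟨rfl, rfl, rfl⟩

/-- the relation between the configurations -/
private def CC {α : Type} [Fintype α] (M : DPDA α) (w : List α)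
    (c : (mpd M).Q × (Fin (mpd M).k → ℕ)) (v : List α) : Prop :=
  Cor w c.1.1.2 c.1.2 (c.2 (0 : Fin 1)) v

private theorem stepC {α : Type} [Fintype α] (M : DPDA α) (w : List α)
    (c c1 : (mpd M).Q × (Fin (mpd M).k → ℕ)) (Z : M.Γ) (γ : List M.Γ) (v : List α)
    (hc : CC M w c v) (h : mmv (mpd M) w c Z c1 γ) :
    ∃ v', CC M w c1 v' ∧
      (dmv M (c.1.1.1, v) Z (c1.1.1.1, v') γ ∨ (γ = [Z] ∧ c1.1.1.1 = c.1.1.1 ∧ v' = v)) := by
  obtain ⟨d, h1, h2⟩ := h
  obtain ⟨⟨⟨q, o⟩, e⟩, p⟩ := c
  obtain ⟨Q2, p2⟩ := c1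
  have h3 : p2 = nps w d p := h2
  subst h3
  exact mpd_step M w q o e p v Z Q2 d γ hc h1

private theorem pops1 {C G : Type} (mv : C → G → C → List G → Prop) (c c' : C) (Z : G) (f : Fo)
    (h : Pops mv c [Z] c' f) :
    ∃ (c1 : C) (γ : List G) (a : Fo), f = Fo.nd a Fo.nil ∧ mv c Z c1 γ ∧ Pops mv c1 γ c' a := by
  cases h with
  | cons c c1 c2 c3 Z γ β a b hm h1 h2 =>
    cases h2
    exact ⟨c1, γ, a, rfl, hm, h1⟩

private theorem accs0 {C G : Type} (mv : C → G → C → List G → Prop) (F : C → Prop) (c : C) (g : Fo)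
    (h : Accs mv F c [] g) : F c ∧ g = Fo.nil := by
  cases h with
  | fin c β hF => exact ⟨hF, rfl⟩

theorem hD1 (hFO : StFO) : Pool.Agent.Helper74.BS.StD1 := by
  intro α _ M w F hF
  obtain ⟨_, f2, f3, f4, _⟩ := hFO
  have keyP : ∀ (c : (mpd M).Q × (Fin (mpd M).k → ℕ)) (β : List M.Γ)
      (c' : (mpd M).Q × (Fin (mpd M).k → ℕ)) (F : Fo), Pops (mmv (mpd M) w) c β c' F →
      ∀ v, CC M w c v → ∃ v' f, CC M w c' v' ∧ Pops (dmv M) (c.1.1.1, v) β (c'.1.1.1, v') f ∧
        ∀ K j, cn K j f ≤ cn K j F := by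
    intro c β c' F h
    induction h with
    | nil c =>
      intro v hv
      exact ⟨v, Fo.nil, hv, Pops.nil _, fun _ _ => le_rfl⟩
    | cons c c1 c2 c3 Z γ β F1 G hm h1 h2 ih1 ih2 =>
      intro v hv
      obtain ⟨v1, hv1, hs⟩ := stepC M w c c1 Z γ v hv hm
      obtain ⟨v2, f1, hv2, hp1, hf1⟩ := ih1 v1 hv1
      obtain ⟨v3, g, hv3, hp2, hg⟩ := ih2 v2 hv2
      rcases hs with hs | ⟨rfl, e1, rfl⟩
      · exact ⟨v3, Fo.nd f1 g, hv3, Pops.cons _ _ _ _ _ _ _ _ _ hs hp1 hp2, f2 _ _ _ _ hf1 hg⟩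
      · rw [e1] at hp1
        obtain ⟨d1, γ', a, rfl, hma, hpa⟩ := pops1 _ _ _ _ _ hp1
        refine ⟨v3, Fo.nd a g, hv3, Pops.cons _ _ _ _ _ _ _ _ _ hma hpa hp2, ?_⟩
        intro K j
        rw [← f3 K j a g]
        exact f2 _ _ _ _ hf1 hg K j
  have keyA : ∀ (c : (mpd M).Q × (Fin (mpd M).k → ℕ)) (β : List M.Γ) (F : Fo),
      Accs (mmv (mpd M) w) (fun c => (mpd M).acc c.1) c β F →
      ∀ v, CC M w c v → ∃ f, Accs (dmv M) (fun c => M.acc c.1 ∧ c.2 = []) (c.1.1.1, v) β f ∧
        ∀ K j, cn K j f ≤ cn K j F := by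
    intro c β F h
    induction h with
    | fin c β hF =>
      intro v hv
      refine ⟨Fo.nil, Accs.fin _ _ ?_, fun _ _ => le_rfl⟩
      obtain ⟨h1, h2, h3⟩ := hF
      refine ⟨h1, ?_⟩
      have hv' : Cor w c.1.1.2 c.1.2 (c.2 (0 : Fin 1)) v := hv
      rw [h2, h3] at hv'
      obtain ⟨k1, k2, k3⟩ := hv'
      change v = []
      rw [k1, k3 rfl]
      simp
    | down c c1 Z γ β F1 hm hA ih =>
      intro v hv
      obtain ⟨v1, hv1, hs⟩ := stepC M w c c1 Z γ v hv hm
      obtain ⟨f1, ha1, hf1⟩ := ih v1 hv1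
      rcases hs with hs | ⟨rfl, e1, rfl⟩
      · exact ⟨Fo.nd f1 Fo.nil, Accs.down _ _ _ _ _ _ hs ha1, f2 _ _ _ _ hf1 (fun _ _ => le_rfl)⟩
      · rw [e1] at ha1
        have hle : ∀ K j, cn K j f1 ≤ cn K j (Fo.nd F1 Fo.nil) :=
          fun K j => (hf1 K j).trans (f4 K j F1 Fo.nil)
        refine ⟨f1, ?_, hle⟩
        cases ha1 with
        | fin _ _ hF => exact Accs.fin _ _ hF
        | down _ d1 _ γ' _ a hma haa => exact Accs.down _ _ _ _ _ _ hma haa
        | next _ d1 d2 _ γ' _ a g hma hpa hag =>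
          obtain ⟨g1, rfl⟩ := accs0 _ _ _ _ hag
          exact Accs.next _ _ _ _ _ _ _ _ hma hpa (Accs.fin _ _ g1)
    | next c c1 c2 Z γ β F1 G hm hP hA ih =>
      intro v hv
      obtain ⟨v1, hv1, hs⟩ := stepC M w c c1 Z γ v hv hm
      obtain ⟨v2, f1, hv2, hp1, hf1⟩ := keyP _ _ _ _ hP v1 hv1
      obtain ⟨g, hag, hg⟩ := ih v2 hv2
      rcases hs with hs | ⟨rfl, e1, rfl⟩
      · exact ⟨Fo.nd f1 g, Accs.next _ _ _ _ _ _ _ _ hs hp1 hag, f2 _ _ _ _ hf1 hg⟩
      · rw [e1] at hp1
        obtain ⟨d1, γ', a, rfl, hma, hpa⟩ := pops1 _ _ _ _ _ hp1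
        refine ⟨Fo.nd a g, Accs.next _ _ _ _ _ _ _ _ hma hpa hag, ?_⟩
        intro K j
        rw [← f3 K j a g]
        exact f2 _ _ _ _ hf1 hg K j
  have h0 : CC M w ((mpd M).q0, fun _ => 0) w := by
    change Cor w none false 0 w
    refine ⟨by simp, by omega, fun h => by simp at h⟩
  obtain ⟨f, hf, hle⟩ := keyA _ _ _ hF w h0
  exact ⟨f, hf, hle⟩

end Pool.Agent.Helper53.BS
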